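import Pool.Agent.H18.Tau1

set_option autoImplicit false

namespace Pool.Agent.Results.MP_b2422a_gt.Indep

open Pool.Agent.H18.Tau

/-- Every countable open `τ*`-cover of the Cantor space contains a `γ`-cover. -/
def TauStarGamma : Prop :=
  ∀ U : ℕ → Set (ℕ → Bool),
    (∀ n, IsOpen (U n)) →
    Function.Injective U →
    (∀ n, U n ≠ Set.univ) →
    (∀ x : ℕ → Bool, {n : ℕ | x ∈ U n}.Infinite) →
    (∃ B : (ℕ → Bool) → Set ℕ,
        (∀ x, B x ⊆ {n : ℕ | x ∈ U n} ∧ (B x).Infinite) ∧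
        (∀ x y, (B x \ B y).Finite ∨ (B y \ B x).Finite)) →
    ∃ A : Set ℕ, A.Infinite ∧ ∀ x : ℕ → Bool, {n : ℕ | n ∈ A ∧ x ∉ U n}.Finite

/-- The continuum hypothesis gives a negative answer; two statements true in the Cohen model give
a positive answer. -/
theorem result :
    (Cardinal.continuum.{0} = Cardinal.aleph 1 → ¬ TauStarGamma) ∧
    ((∀ L : Set (Set ℕ), (∀ A ∈ L, ∀ B ∈ L, (A \ B).Finite ∨ (B \ A).Finite) →
        ∃ L' ⊆ L, Cardinal.mk L' ≤ Cardinal.aleph 1 ∧ ∀ A ∈ L, ∃ B ∈ L', (B \ A).Finite) →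
      (∀ S : Set (Set (ℕ → Bool)), Cardinal.mk S ≤ Cardinal.aleph 1 →
        (∀ s ∈ S, IsMeagre s) → ⋃₀ S ≠ Set.univ) →
      TauStarGamma) := by
  refine ⟨fun hCH h => ?_, fun H1 H2 U hU _ _ _ ⟨B, h1, h2⟩ => yes H1 H2 U hU B h1 h2⟩
  obtain ⟨B, b1, b2⟩ := tower hCH
  obtain ⟨A, a1, a2⟩ := h UU UU_open
    (fun n m t => by
      by_contra hn
      have := (single_UU n m).mpr (Ne.symm hn)
      rw [← t] at this
      exact (single_UU n n).mp this rfl)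
    (fun n t => (single_UU n n).mp (t ▸ Set.mem_univ _) rfl)
    (fun x => (b1 x).2.mono (b1 x).1) ⟨B, b1, b2⟩
  obtain ⟨x, hx⟩ := no_gamma a1
  exact hx (a2 x)

end Pool.Agent.Results.MP_b2422a_gt.Indep
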